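import Mathlib
import Pool.Agent.Lib.BrouwerThm.Basic

set_option autoImplicit false

namespace Pool.Agent.Lib.MP_91a61a_gt

open Set Metric

/-- A cut-off function of a real variable. -/
def clamp (t : ℝ) : ℝ := max 0 (min 1 t)

theorem clamp_continuous : Continuous clamp := by
  unfold clamp
  fun_prop

theorem clamp_of_one_le {t : ℝ} (h : 1 ≤ t) : clamp t = 1 := by
  unfold clamp
  rw [min_eq_left h, max_eq_right zero_le_one]

theorem clamp_of_nonpos {t : ℝ} (h : t ≤ 0) : clamp t = 0 := by
  unfold clamp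
  rw [max_eq_left]
  exact (min_le_right _ _).trans h

section
variable {X Y : Type*} [NormedAddCommGroup X] [NormedSpace ℝ X] [FiniteDimensional ℝ X]
  [Nontrivial X] [NormedAddCommGroup Y] [NormedSpace ℝ Y] [FiniteDimensional ℝ Y] [Nontrivial Y]

/-- The linear automorphism `(p, q) ↦ ((p.1, q.2), p - q)`. -/
noncomputable def linA : ((X × Y) × (X × Y)) ≃L[ℝ] ((X × Y) × (X × Y)) :=
  LinearEquiv.toContinuousLinearEquiv
    { toFun := fun w => ((w.1.1, w.2.2), w.1 - w.2)
      map_add' := by
        rintro ⟨⟨a, b⟩, ⟨c, d⟩⟩ ⟨⟨a', b'⟩, ⟨c', d'⟩⟩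
        simp only [Prod.mk_add_mk, Prod.mk_sub_mk, Prod.mk.injEq, true_and]
        constructor <;> abel
      map_smul' := by
        rintro t ⟨⟨a, b⟩, ⟨c, d⟩⟩
        simp only [Prod.smul_mk, Prod.mk_sub_mk, RingHom.id_apply,
          smul_sub]
      invFun := fun w => ((w.1.1, w.1.2 + w.2.2), (w.1.1 - w.2.1, w.1.2))
      left_inv := by
        rintro ⟨⟨a, b⟩, ⟨c, d⟩⟩
        simp
      right_inv := by
        rintro ⟨⟨a, b⟩, ⟨c, d⟩⟩
        simp }

theorem linA_apply (w : (X × Y) × (X × Y)) : linA w = ((w.1.1, w.2.2), w.1 - w.2) := rfl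

/-- The topological core: zero sets of the two coordinate maps cannot split in the Borromean
way. -/
theorem core (u : X × Y → X) (v : X × Y → Y) (hu : Continuous u) (hv : Continuous v) (ρ : ℝ)
    (hρ : 0 ≤ ρ)
    (hu1 : ∀ p, ρ < ‖p‖ → u p = p.1) (hv1 : ∀ p, ρ < ‖p‖ → v p = p.2)
    (P1 P2 Q1 Q2 : Set (X × Y)) (hP1 : IsClosed P1) (hP2 : IsClosed P2)
    (hQ1 : IsClosed Q1) (hQ2 : IsClosed Q2)
    (hP : ∀ p, u p = 0 → p ∈ P1 ∨ p ∈ P2) (hQ : ∀ p, v p = 0 → p ∈ Q1 ∨ p ∈ Q2)
    (hPd : Disjoint P1 P2) (hQd : Disjoint Q1 Q2)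
    (hP2b : ∀ p ∈ P2, ‖p‖ ≤ ρ) (hQ1b : ∀ p ∈ Q1, ‖p‖ ≤ ρ)
    (hPQ : ∀ p ∈ P1, p ∈ Q2 → u p = 0 → v p = 0 → False) : False := by
  obtain ⟨lam, hl1, hl2, -⟩ := exists_continuous_zero_one_of_isClosed hP1 hP2 hPd
  obtain ⟨kap, hk1, hk2, -⟩ := exists_continuous_zero_one_of_isClosed hQ2 hQ1 hQd.symm
  obtain ⟨ex, hex⟩ := exists_norm_eq X (zero_le_one' ℝ)
  obtain ⟨ey, hey⟩ := exists_norm_eq Y (zero_le_one' ℝ)
  let S : ℝ := 2 * ρ + 1
  let R : ℝ := ρ + 1
  let s : (X × Y) × (X × Y) → ℝ := fun w => S * clamp (R + 1 - ‖w‖)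
  let t : (X × Y) × (X × Y) → ℝ := fun w => clamp (R + 2 - ‖w‖)
  let G : (X × Y) × (X × Y) → (X × Y) × (X × Y) := fun w =>
    ((t w • u w.1 + (1 - t w) • w.1.1, t w • v w.2 + (1 - t w) • w.2.2),
      w.1 - w.2 - s w • (((1 - lam w.1) * kap w.2) • ex, lam w.1 • ey))
  have hs : Continuous s := continuous_const.mul
    (clamp_continuous.comp (continuous_const.sub continuous_norm))
  have ht : Continuous t := clamp_continuous.comp (continuous_const.sub continuous_norm)
  have hG : Continuous G := by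
    have h1 := lam.continuous
    have h2 := kap.continuous
    fun_prop
  obtain ⟨⟨p, q⟩, hw⟩ := Pool.Agent.Lib.BrouwerThm.exists_zero_of_eq_linear linA G hG (R + 2) (by
    intro w hw
    have h1 : s w = 0 := by
      simp only [s]
      rw [clamp_of_nonpos (by linarith), mul_zero]
    have h2 : t w = 0 := by
      simp only [t]
      rw [clamp_of_nonpos (by linarith)]
    simp only [G, h1, h2, linA_apply, zero_smul, sub_zero, one_smul, zero_add])
  have hnorm : ‖(p, q)‖ = max ‖p‖ ‖q‖ := by rw [Prod.norm_def]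
  simp only [G, Prod.mk_eq_zero] at hw
  obtain ⟨⟨e1, e2⟩, e3⟩ := hw
  rcases le_total (R + 1) ‖(p, q)‖ with hbig | hsmall
  · -- far away
    have h1 : s (p, q) = 0 := by
      simp only [s]
      rw [clamp_of_nonpos (by linarith), mul_zero]
    rw [h1, zero_smul, sub_zero, sub_eq_zero] at e3
    subst e3
    rw [hnorm, max_self] at hbig
    have h2 : ρ < ‖p‖ := by simp only [R] at hbig; linarith
    rw [hu1 p h2, ← add_smul, add_sub_cancel, one_smul] at e1
    rw [hv1 p h2, ← add_smul, add_sub_cancel, one_smul] at e2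
    have h3 : p = 0 := Prod.ext e1 e2
    rw [h3, norm_zero] at h2
    linarith
  · have h1 : t (p, q) = 1 := by
      simp only [t]
      rw [clamp_of_one_le (by linarith)]
    rw [h1, one_smul, sub_self, zero_smul, add_zero] at e1 e2
    have e4 : p = q + s (p, q) • (((1 - lam p) * kap q) • ex, lam p • ey) := by
      rw [sub_sub, sub_eq_zero] at e3
      exact e3
    have hS : ‖(p, q)‖ ≤ ρ → s (p, q) = S := by
      intro h
      simp only [s]
      rw [clamp_of_one_le (by simp only [R]; linarith), mul_one]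
    have hS0 : 0 ≤ S := by simp only [S]; linarith
    rcases hP p e1 with hp | hp
    · have hlp : lam p = 0 := hl1 hp
      rcases hQ q e2 with hq | hq
      · -- case (ii)
        have hkq : kap q = 1 := hk2 hq
        rw [hlp, hkq] at e4
        simp only [sub_zero, mul_one, one_smul, zero_smul, Prod.smul_mk, smul_zero] at e4
        have h2 : p.2 = q.2 := by rw [e4]; simp
        have h3 : p.1 = q.1 + s (p, q) • ex := by
          conv_lhs => rw [e4]
          simp
        have hqb := hQ1b q hq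
        have hpb : ‖p‖ ≤ ρ := by
          by_contra hcon
          push Not at hcon
          have h4 : p.1 = 0 := by rw [← hu1 p hcon]; exact e1
          have h5 : ‖p‖ = ‖q.2‖ := by
            rw [Prod.norm_def, h4, h2, norm_zero, max_eq_right (norm_nonneg _)]
          have h6 : ‖q.2‖ ≤ ‖q‖ := norm_snd_le q
          linarith
        have h7 : s (p, q) = S := hS (by rw [hnorm]; exact max_le hpb hqb)
        rw [h7] at h3
        have h8 : ‖S • ex‖ ≤ ‖p.1‖ + ‖q.1‖ := by
          have : S • ex = p.1 - q.1 := by rw [h3]; abel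
          rw [this]
          exact norm_sub_le _ _
        rw [norm_smul, hex, mul_one, Real.norm_eq_abs, abs_of_nonneg hS0] at h8
        have h9 : ‖p.1‖ ≤ ‖p‖ := norm_fst_le p
        have h10 : ‖q.1‖ ≤ ‖q‖ := norm_fst_le q
        simp only [S] at h8
        linarith
      · -- case (iii)
        have hkq : kap q = 0 := hk1 hq
        rw [hlp, hkq] at e4
        simp only [sub_zero, mul_zero, zero_smul, Prod.smul_mk, smul_zero] at e4
        have h2 : p = q := by
          rw [e4]
          ext <;> simp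
        subst h2
        exact hPQ p hp hq e1 e2
    · -- case (i)
      have hlp : lam p = 1 := hl2 hp
      rw [hlp] at e4
      simp only [sub_self, zero_mul, one_smul, zero_smul, Prod.smul_mk, smul_zero] at e4
      have h2 : p.1 = q.1 := by rw [e4]; simp
      have h3 : p.2 = q.2 + s (p, q) • ey := by
        conv_lhs => rw [e4]
        simp
      have hpb := hP2b p hp
      have hqb : ‖q‖ ≤ ρ := by
        by_contra hcon
        push Not at hcon
        have h4 : q.2 = 0 := by rw [← hv1 q hcon]; exact e2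
        have h5 : ‖q‖ = ‖p.1‖ := by
          rw [Prod.norm_def, h4, h2, norm_zero, max_eq_left (norm_nonneg _)]
        have h6 : ‖p.1‖ ≤ ‖p‖ := norm_fst_le p
        linarith
      have h7 : s (p, q) = S := hS (by rw [hnorm]; exact max_le hpb hqb)
      rw [h7] at h3
      have h8 : ‖S • ey‖ ≤ ‖p.2‖ + ‖q.2‖ := by
        have : S • ey = p.2 - q.2 := by rw [h3]; abel
        rw [this]
        exact norm_sub_le _ _
      rw [norm_smul, hey, mul_one, Real.norm_eq_abs, abs_of_nonneg hS0] at h8
      have h9 : ‖p.2‖ ≤ ‖p‖ := norm_snd_le p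
      have h10 : ‖q.2‖ ≤ ‖q‖ := norm_snd_le q
      simp only [S] at h8
      linarith

end

end Pool.Agent.Lib.MP_91a61a_gt
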