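import Mathlib

set_option autoImplicit false

/-!
# Definitions for the link `L_{i,j,n}`

Knots, links, unlinks and Brunnian links in `ℝ^n`, and the three components of `L_{i,j,n}`.
-/

namespace Pool.Agent.Lib.MP_91a61a_gt

open Set Metric

/-- Euclidean space `ℝ^n`. The coordinate `x_{m+1}` of the problem is `x m`, `m : Fin n`. -/
abbrev E (n : ℕ) : Type := EuclideanSpace ℝ (Fin n)

/-- A knot in `ℝ^n`: a subset homeomorphic to a sphere `S^k`, the unit sphere of `ℝ^(k+1)`. -/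
def IsKnot {n : ℕ} (F : Set (E n)) : Prop :=
  ∃ k : ℕ, Nonempty (sphere (0 : E (k + 1)) 1 ≃ₜ F)

/-- A family of pairwise disjoint knots. -/
def IsLink {n : ℕ} {ι : Type} (L : ι → Set (E n)) : Prop :=
  (∀ a, IsKnot (L a)) ∧ ∀ a b, a ≠ b → Disjoint (L a) (L b)

/-- `B` is a ball with boundary sphere `F`: for some `k` there is a homeomorphism of the closed
unit ball of `ℝ^(k+1)` onto `B` that carries the unit sphere `S^k` onto `F`. -/
def BallBoundedBy {n : ℕ} (B F : Set (E n)) : Prop :=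
  ∃ (k : ℕ) (h : closedBall (0 : E (k + 1)) 1 ≃ₜ B),
    {y : E n | ∃ x : closedBall (0 : E (k + 1)) 1, ‖(x : E (k + 1))‖ = 1 ∧ (h x : E n) = y} = F

/-- Every component bounds a ball which misses the other components. -/
def IsUnlink {n : ℕ} {ι : Type} (L : ι → Set (E n)) : Prop :=
  ∀ a, ∃ B, BallBoundedBy B (L a) ∧ ∀ b, b ≠ a → Disjoint B (L b)

/-- A link with at least three components which is not an unlink, while every proper sublink is
an unlink. -/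
def IsBrunnian {n : ℕ} {ι : Type} [Fintype ι] (L : ι → Set (E n)) : Prop :=
  IsLink L ∧ 3 ≤ Fintype.card ι ∧ ¬ IsUnlink L ∧
    ∀ s : Set ι, s ≠ univ → IsUnlink (fun a : s => L a)

/-- `K₁ = {x_1^2 + ... + x_{n-j-1}^2 = 4, x_{n-j} = ... = x_n = 0}`. -/
def K1 (j n : ℕ) : Set (E n) :=
  {x | ∑ m ∈ Finset.univ.filter (fun m : Fin n => (m : ℕ) + j + 1 < n), x m ^ 2 = 4 ∧
    ∀ m : Fin n, n ≤ (m : ℕ) + j + 1 → x m = 0}

/-- `K₂ = {x_{i+1}^2 + ... + x_n^2 = 9, x_1 = ... = x_i = 0}`. -/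
def K2 (i n : ℕ) : Set (E n) :=
  {x | ∑ m ∈ Finset.univ.filter (fun m : Fin n => i ≤ (m : ℕ)), x m ^ 2 = 9 ∧
    ∀ m : Fin n, (m : ℕ) < i → x m = 0}

/-- `K₃ = {x_1^2 + ... + x_i^2 + (x_{n-j}^2 + ... + x_n^2)/16 = 1, x_{i+1} = ... = x_{n-j-1} = 0}`. -/
def K3 (i j n : ℕ) : Set (E n) :=
  {x | ∑ m ∈ Finset.univ.filter (fun m : Fin n => (m : ℕ) < i), x m ^ 2 +
      (1 / 16) * ∑ m ∈ Finset.univ.filter (fun m : Fin n => n ≤ (m : ℕ) + j + 1), x m ^ 2 = 1 ∧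
    ∀ m : Fin n, i ≤ (m : ℕ) → (m : ℕ) + j + 1 < n → x m = 0}

/-- The link `L_{i,j,n}`. -/
def L (i j n : ℕ) : Fin 3 → Set (E n) := ![K1 j n, K2 i n, K3 i j n]

end Pool.Agent.Lib.MP_91a61a_gt
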