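import Mathlib
import Pool.Agent.Lib.MP_91a61a_gt.Core
import Pool.Agent.Lib.MP_91a61a_gt.Defs

set_option autoImplicit false

namespace Pool.Agent.Lib.MP_91a61a_gt

open Set Metric

/-! ### Balls and spheres -/

theorem ballBoundedBy_isKnot {n : ℕ} {B F : Set (E n)} (h : BallBoundedBy B F) : IsKnot F := by
  obtain ⟨k, h, hF⟩ := h
  refine ⟨k, ?_⟩
  let φ : sphere (0 : E (k + 1)) 1 → E n :=
    fun x => h ⟨x, sphere_subset_closedBall x.2⟩
  have hφ : Continuous φ := by
    refine continuous_subtype_val.comp (h.continuous.comp ?_)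
    exact continuous_subtype_val.subtype_mk _
  have hinj : Function.Injective φ := by
    intro x y hxy
    have h1 := h.injective (Subtype.ext hxy)
    have h2 := congrArg Subtype.val h1
    exact Subtype.ext h2
  have hr : range φ = F := by
    rw [← hF]
    ext y
    constructor
    · rintro ⟨x, rfl⟩
      exact ⟨⟨x, sphere_subset_closedBall x.2⟩, mem_sphere_zero_iff_norm.1 x.2, rfl⟩
    · rintro ⟨x, hx, rfl⟩
      exact ⟨⟨x, mem_sphere_zero_iff_norm.2 hx⟩, rfl⟩
  exact ⟨((hφ.isClosedEmbedding hinj).isEmbedding.toHomeomorph).trans (Homeomorph.setCongr hr)⟩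

theorem ball_lemma {n : ℕ} (A : Finset (Fin n)) (hA : A.Nonempty) (al : Fin n → ℝ)
    (hal : ∀ m, 0 < al m) (e : Fin n) (he : e ∉ A) (c : ℝ) :
    ∃ B : Set (E n),
      BallBoundedBy B {x | ∑ m ∈ A, al m * x m ^ 2 = 1 ∧ ∀ m ∉ A, x m = 0} ∧
      ∀ x ∈ B, (∀ m ∉ A, m ≠ e → x m = 0) ∧
        ∃ s : ℝ, ∑ m ∈ A, al m * x m ^ 2 + s ^ 2 = 1 ∧ x e = c * s := by
  classical
  obtain ⟨k, hk⟩ : ∃ k, A.card = k + 1 := ⟨A.card - 1, by
    have := hA.card_pos
    omega⟩
  let σ : A ≃ Fin (k + 1) := A.equivFinOfCardEq hk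
  let f : E (k + 1) → E n := fun w => WithLp.toLp 2 (fun m =>
    if h : m ∈ A then w (σ ⟨m, h⟩) / Real.sqrt (al m)
    else if m = e then c * Real.sqrt (1 - ‖w‖ ^ 2) else 0)
  have hfA : ∀ w m (h : m ∈ A), f w m = w (σ ⟨m, h⟩) / Real.sqrt (al m) := by
    intro w m h
    simp only [f, h, dite_true]
  have hfe : ∀ w, f w e = c * Real.sqrt (1 - ‖w‖ ^ 2) := by
    intro w
    simp only [f, he, dite_false, if_true]
  have hf0 : ∀ w m, m ∉ A → m ≠ e → f w m = 0 := by
    intro w m h1 h2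
    simp only [f, h1, dite_false, h2, if_false]
  have hsq : ∀ m, Real.sqrt (al m) ≠ 0 := fun m => (Real.sqrt_pos.2 (hal m)).ne'
  have hsum : ∀ w, ∑ m ∈ A, al m * f w m ^ 2 = ‖w‖ ^ 2 := by
    intro w
    rw [EuclideanSpace.real_norm_sq_eq, ← Finset.sum_coe_sort A, ← Equiv.sum_comp σ]
    apply Finset.sum_congr rfl
    rintro ⟨m, hm⟩ _
    rw [hfA w m hm, div_pow, Real.sq_sqrt (hal m).le, mul_div_cancel₀ _ (hal m).ne']
  have hfc : Continuous f := by
    refine (PiLp.continuous_toLp 2 _).comp (continuous_pi fun m => ?_)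
    by_cases h : m ∈ A
    · simp only [h, dite_true]
      fun_prop
    · simp only [h, dite_false]
      split_ifs
      · fun_prop
      · fun_prop
  have hfinj : Function.Injective f := by
    intro w w' hww'
    ext q
    have h1 := congrArg (fun x : E n => x ((σ.symm q : A) : Fin n)) hww'
    simp only [hfA _ _ (σ.symm q).2] at h1
    have h2 := (div_left_inj' (hsq _)).1 h1
    simpa using h2
  let φ : closedBall (0 : E (k + 1)) 1 → E n := fun x => f x
  have hφ : Continuous φ := hfc.comp continuous_subtype_val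
  have hφi : Function.Injective φ := fun x y h => Subtype.ext (hfinj h)
  refine ⟨range φ, ⟨k, (hφ.isClosedEmbedding hφi).isEmbedding.toHomeomorph, ?_⟩, ?_⟩
  · ext y
    constructor
    · rintro ⟨x, hx, rfl⟩
      refine ⟨?_, ?_⟩
      · have h1 := hsum x
        rw [hx, one_pow] at h1
        exact h1
      · intro m hm
        by_cases hme : m = e
        · subst hme
          have h1 := hfe x
          rw [hx] at h1
          have h2 : f x m = 0 := by rw [h1]; simp
          exact h2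
        · exact hf0 x m hm hme
    · rintro ⟨hy1, hy2⟩
      let w : E (k + 1) := WithLp.toLp 2 (fun q =>
        Real.sqrt (al (σ.symm q : A)) * y (σ.symm q : A))
      have hw : ‖w‖ ^ 2 = 1 := by
        rw [EuclideanSpace.real_norm_sq_eq, ← hy1, ← Finset.sum_coe_sort A, ← Equiv.sum_comp σ]
        apply Finset.sum_congr rfl
        intro m _
        simp only [w, Equiv.symm_apply_apply, mul_pow, Real.sq_sqrt (hal _).le]
      have hw1 : ‖w‖ = 1 := by
        have h0 := norm_nonneg w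
        nlinarith
      refine ⟨⟨w, mem_closedBall_zero_iff.2 hw1.le⟩, hw1, ?_⟩
      change f w = y
      ext m
      by_cases hm : m ∈ A
      · rw [hfA w m hm]
        simp only [w, Equiv.symm_apply_apply]
        rw [mul_comm, mul_div_assoc, div_self (hsq m), mul_one]
      · by_cases hme : m = e
        · subst hme
          rw [hfe w, hw1, hy2 m hm]
          simp
        · rw [hf0 w m hm hme, hy2 m hm]
  · rintro _ ⟨x, rfl⟩
    refine ⟨fun m h1 h2 => hf0 x m h1 h2, Real.sqrt (1 - ‖(x : E (k + 1))‖ ^ 2), ?_, hfe x⟩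
    have h1 : ‖(x : E (k + 1))‖ ≤ 1 := mem_closedBall_zero_iff.1 x.2
    have h2 := norm_nonneg (x : E (k + 1))
    have h3 := hsum x
    change ∑ m ∈ A, al m * f x m ^ 2 + _ = 1
    rw [h3, Real.sq_sqrt (by nlinarith)]
    ring

/-- Reduction of the unlink property of proper sublinks of three-component links to pairs. -/
theorem unlink_of_pairs {n : ℕ} (L : Fin 3 → Set (E n))
    (h : ∀ a b, a ≠ b → ∃ B, BallBoundedBy B (L a) ∧ Disjoint B (L b)) (s : Set (Fin 3))
    (hs : s ≠ univ) : IsUnlink (fun a : s => L a) := by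
  obtain ⟨c, hc⟩ : ∃ c, c ∉ s := by
    by_contra hcon
    push Not at hcon
    exact hs (eq_univ_of_forall hcon)
  rintro ⟨a, ha⟩
  have hac : a ≠ c := fun h => hc (h ▸ ha)
  have key : ∀ a c : Fin 3, a ≠ c → ∃ b0, a ≠ b0 ∧ ∀ b, b ≠ a → b ≠ c → b = b0 := by decide
  obtain ⟨b0, hb0, hb⟩ := key a c hac
  obtain ⟨B, hB1, hB2⟩ := h a b0 hb0
  refine ⟨B, hB1, ?_⟩
  rintro ⟨b, hbs⟩ hba
  have h1 : b ≠ a := fun h => hba (Subtype.ext h)
  have h2 : b ≠ c := fun h => hc (h ▸ hbs)
  have h3 : b = b0 := hb b h1 h2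
  subst h3
  exact hB2

/-! ### The three blocks of coordinates -/

section Blocks

variable {n : ℕ} (i j : ℕ)

/-- Sum of squares of the first block. -/
def fa (x : E n) : ℝ := ∑ m ∈ Finset.univ.filter (fun m : Fin n => (m : ℕ) < i), x m ^ 2

/-- Sum of squares of the middle block. -/
def fb (x : E n) : ℝ :=
  ∑ m ∈ Finset.univ.filter (fun m : Fin n => i ≤ (m : ℕ) ∧ (m : ℕ) + j + 1 < n), x m ^ 2

/-- Sum of squares of the last block. -/
def fc (x : E n) : ℝ := ∑ m ∈ Finset.univ.filter (fun m : Fin n => n ≤ (m : ℕ) + j + 1), x m ^ 2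

theorem fa_nonneg (x : E n) : 0 ≤ fa i x := Finset.sum_nonneg fun _ _ => sq_nonneg _
theorem fb_nonneg (x : E n) : 0 ≤ fb i j x := Finset.sum_nonneg fun _ _ => sq_nonneg _
theorem fc_nonneg (x : E n) : 0 ≤ fc j x := Finset.sum_nonneg fun _ _ => sq_nonneg _

theorem fa_zero (x : E n) (h : ∀ m : Fin n, (m : ℕ) < i → x m = 0) : fa i x = 0 :=
  Finset.sum_eq_zero fun m hm => by rw [h m (Finset.mem_filter.1 hm).2]; simp

theorem fb_zero (x : E n) (h : ∀ m : Fin n, i ≤ (m : ℕ) → (m : ℕ) + j + 1 < n → x m = 0) :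
    fb i j x = 0 :=
  Finset.sum_eq_zero fun m hm => by
    rw [h m (Finset.mem_filter.1 hm).2.1 (Finset.mem_filter.1 hm).2.2]; simp

theorem fc_zero (x : E n) (h : ∀ m : Fin n, n ≤ (m : ℕ) + j + 1 → x m = 0) : fc j x = 0 :=
  Finset.sum_eq_zero fun m hm => by rw [h m (Finset.mem_filter.1 hm).2]; simp

theorem sumAB (hij : i + j + 2 ≤ n) (x : E n) :
    ∑ m ∈ Finset.univ.filter (fun m : Fin n => (m : ℕ) + j + 1 < n), x m ^ 2 =
      fa i x + fb i j x := by
  unfold fa fb
  rw [Finset.sum_filter, Finset.sum_filter, Finset.sum_filter, ← Finset.sum_add_distrib]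
  apply Finset.sum_congr rfl
  intro m _
  by_cases h1 : (m : ℕ) < i
  · have h2 : (m : ℕ) + j + 1 < n := by omega
    have h3 : ¬ (i ≤ (m : ℕ) ∧ (m : ℕ) + j + 1 < n) := by omega
    simp [h1, h2]
  · by_cases h2 : (m : ℕ) + j + 1 < n
    · have h3 : i ≤ (m : ℕ) := by omega
      simp [h1, h2, h3]
    · simp [h1, h2]

theorem sumBC (hij : i + j + 2 ≤ n) (x : E n) :
    ∑ m ∈ Finset.univ.filter (fun m : Fin n => i ≤ (m : ℕ)), x m ^ 2 =
      fb i j x + fc j x := by
  unfold fb fc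
  rw [Finset.sum_filter, Finset.sum_filter, Finset.sum_filter, ← Finset.sum_add_distrib]
  apply Finset.sum_congr rfl
  intro m _
  by_cases h1 : i ≤ (m : ℕ)
  · by_cases h2 : (m : ℕ) + j + 1 < n
    · have h3 : ¬ n ≤ (m : ℕ) + j + 1 := by omega
      simp [h1, h2]
    · have h3 : n ≤ (m : ℕ) + j + 1 := by omega
      simp [h1, h3]
  · have h3 : ¬ n ≤ (m : ℕ) + j + 1 := by omega
    simp [h1, h3]

theorem mem_K1 (hij : i + j + 2 ≤ n) (x : E n) :
    x ∈ K1 j n ↔ fa i x + fb i j x = 4 ∧ ∀ m : Fin n, n ≤ (m : ℕ) + j + 1 → x m = 0 := by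
  rw [← sumAB i j hij]
  exact Iff.rfl

theorem mem_K2 (hij : i + j + 2 ≤ n) (x : E n) :
    x ∈ K2 i n ↔ fb i j x + fc j x = 9 ∧ ∀ m : Fin n, (m : ℕ) < i → x m = 0 := by
  rw [← sumBC i j hij]
  exact Iff.rfl

theorem mem_K3 (x : E n) :
    x ∈ K3 i j n ↔ fa i x + (1 / 16) * fc j x = 1 ∧
      ∀ m : Fin n, i ≤ (m : ℕ) → (m : ℕ) + j + 1 < n → x m = 0 :=
  Iff.rfl

/-- Balls for the first component. -/
theorem balls1 (hi : 1 ≤ i) (hij : i + j + 2 ≤ n) (c : ℝ) :
    ∃ B : Set (E n), BallBoundedBy B (K1 j n) ∧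
      ∀ x ∈ B, ∃ s : ℝ, (fa i x + fb i j x) / 4 + s ^ 2 = 1 ∧ fc j x = c ^ 2 * s ^ 2 := by
  have hn : n - 1 < n := by omega
  let A : Finset (Fin n) := Finset.univ.filter (fun m : Fin n => (m : ℕ) + j + 1 < n)
  have hmem : ∀ m : Fin n, m ∈ A ↔ (m : ℕ) + j + 1 < n := by simp [A]
  obtain ⟨B, hB, hB'⟩ := ball_lemma A ⟨⟨0, by omega⟩, by simp [hmem]; omega⟩
    (fun _ => 1 / 4) (fun _ => by norm_num) ⟨n - 1, hn⟩ (by simp [hmem]; omega) c
  have hset : {x : E n | ∑ m ∈ A, (1 / 4) * x m ^ 2 = 1 ∧ ∀ m ∉ A, x m = 0} = K1 j n := by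
    ext x
    rw [mem_K1 i j hij, mem_ofPred_eq, ← Finset.mul_sum, sumAB i j hij]
    constructor
    · rintro ⟨h1, h2⟩
      refine ⟨by linarith, fun m hm => h2 m ?_⟩
      rw [hmem]
      omega
    · rintro ⟨h1, h2⟩
      refine ⟨by linarith, fun m hm => h2 m ?_⟩
      rw [hmem] at hm
      omega
  rw [hset] at hB
  refine ⟨B, hB, fun x hx => ?_⟩
  obtain ⟨h1, s, h2, h3⟩ := hB' x hx
  refine ⟨s, ?_, ?_⟩
  · rw [← Finset.mul_sum, sumAB i j hij] at h2
    linarith
  · have : fc j x = x ⟨n - 1, hn⟩ ^ 2 := by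
      unfold fc
      apply Finset.sum_eq_single_of_mem
      · simp
        omega
      · intro m hm hme
        rw [h1 m _ hme]
        · simp
        · rw [hmem]
          have := (Finset.mem_filter.1 hm).2
          omega
    rw [this, h3]
    ring

/-- Balls for the second component. -/
theorem balls2 (hi : 1 ≤ i) (hij : i + j + 2 ≤ n) (c : ℝ) :
    ∃ B : Set (E n), BallBoundedBy B (K2 i n) ∧
      ∀ x ∈ B, ∃ s : ℝ, (fb i j x + fc j x) / 9 + s ^ 2 = 1 ∧ fa i x = c ^ 2 * s ^ 2 := by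
  have hn : 0 < n := by omega
  let A : Finset (Fin n) := Finset.univ.filter (fun m : Fin n => i ≤ (m : ℕ))
  have hmem : ∀ m : Fin n, m ∈ A ↔ i ≤ (m : ℕ) := by simp [A]
  obtain ⟨B, hB, hB'⟩ := ball_lemma A ⟨⟨i, by omega⟩, by simp [hmem]⟩
    (fun _ => 1 / 9) (fun _ => by norm_num) ⟨0, hn⟩ (by simp [hmem]; omega) c
  have hset : {x : E n | ∑ m ∈ A, (1 / 9) * x m ^ 2 = 1 ∧ ∀ m ∉ A, x m = 0} = K2 i n := by
    ext x
    rw [mem_K2 i j hij, mem_ofPred_eq, ← Finset.mul_sum, sumBC i j hij]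
    constructor
    · rintro ⟨h1, h2⟩
      refine ⟨by linarith, fun m hm => h2 m ?_⟩
      rw [hmem]
      omega
    · rintro ⟨h1, h2⟩
      refine ⟨by linarith, fun m hm => h2 m ?_⟩
      rw [hmem] at hm
      omega
  rw [hset] at hB
  refine ⟨B, hB, fun x hx => ?_⟩
  obtain ⟨h1, s, h2, h3⟩ := hB' x hx
  refine ⟨s, ?_, ?_⟩
  · rw [← Finset.mul_sum, sumBC i j hij] at h2
    linarith
  · have : fa i x = x ⟨0, hn⟩ ^ 2 := by
      unfold fa
      apply Finset.sum_eq_single_of_mem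
      · simp
        omega
      · intro m hm hme
        rw [h1 m _ hme]
        · simp
        · rw [hmem]
          have := (Finset.mem_filter.1 hm).2
          omega
    rw [this, h3]
    ring

/-- Balls for the third component. -/
theorem balls3 (hi : 1 ≤ i) (hij : i + j + 2 ≤ n) (c : ℝ) :
    ∃ B : Set (E n), BallBoundedBy B (K3 i j n) ∧
      ∀ x ∈ B, ∃ s : ℝ, fa i x + (1 / 16) * fc j x + s ^ 2 = 1 ∧ fb i j x = c ^ 2 * s ^ 2 := by
  classical
  have hn : i < n := by omega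
  let A : Finset (Fin n) :=
    Finset.univ.filter (fun m : Fin n => (m : ℕ) < i ∨ n ≤ (m : ℕ) + j + 1)
  have hmem : ∀ m : Fin n, m ∈ A ↔ ((m : ℕ) < i ∨ n ≤ (m : ℕ) + j + 1) := by simp [A]
  let al : Fin n → ℝ := fun m => if (m : ℕ) < i then 1 else 1 / 16
  have hal : ∀ m, 0 < al m := by
    intro m
    simp only [al]
    split_ifs <;> norm_num
  have hsum : ∀ x : E n, ∑ m ∈ A, al m * x m ^ 2 = fa i x + (1 / 16) * fc j x := by
    intro x
    unfold fa fc
    rw [Finset.mul_sum, Finset.sum_filter, Finset.sum_filter, Finset.sum_filter,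
      ← Finset.sum_add_distrib]
    apply Finset.sum_congr rfl
    intro m _
    by_cases h1 : (m : ℕ) < i
    · have h3 : ¬ n ≤ (m : ℕ) + j + 1 := by omega
      simp [al, h1, h3]
    · by_cases h2 : n ≤ (m : ℕ) + j + 1
      · simp [al, h1, h2]
      · simp [h1, h2]
  obtain ⟨B, hB, hB'⟩ := ball_lemma A ⟨⟨0, by omega⟩, by simp [hmem]; omega⟩
    al hal ⟨i, hn⟩ (by simp [hmem]; omega) c
  have hset : {x : E n | ∑ m ∈ A, al m * x m ^ 2 = 1 ∧ ∀ m ∉ A, x m = 0} = K3 i j n := by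
    ext x
    rw [mem_K3, mem_ofPred_eq, hsum]
    constructor
    · rintro ⟨h1, h2⟩
      refine ⟨by linarith, fun m hm hm' => h2 m ?_⟩
      rw [hmem]
      omega
    · rintro ⟨h1, h2⟩
      refine ⟨by linarith, fun m hm => ?_⟩
      rw [hmem] at hm
      exact h2 m (by omega) (by omega)
  rw [hset] at hB
  refine ⟨B, hB, fun x hx => ?_⟩
  obtain ⟨h1, s, h2, h3⟩ := hB' x hx
  refine ⟨s, ?_, ?_⟩
  · rw [hsum] at h2
    linarith
  · have : fb i j x = x ⟨i, hn⟩ ^ 2 := by
      unfold fb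
      apply Finset.sum_eq_single_of_mem
      · simp
        omega
      · intro m hm hme
        rw [h1 m _ hme]
        · simp
        · rw [hmem]
          have := (Finset.mem_filter.1 hm).2
          omega
    rw [this, h3]
    ring

theorem pairs (hi : 1 ≤ i) (hij : i + j + 2 ≤ n) (a b : Fin 3) (hab : a ≠ b) :
    ∃ B, BallBoundedBy B (L i j n a) ∧ Disjoint B (L i j n b) := by
  have hd : ∀ (B F : Set (E n)), (∀ x ∈ B, x ∈ F → False) → Disjoint B F := by
    intro B F h
    rw [Set.disjoint_left]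
    exact h
  fin_cases a <;> fin_cases b
  · exact (hab rfl).elim
  · obtain ⟨B, hB, hB'⟩ := balls1 i j hi hij 0
    refine ⟨B, hB, hd _ _ fun x hx hx2 => ?_⟩
    obtain ⟨s, h1, h2⟩ := hB' x hx
    obtain ⟨h3, h4⟩ := (mem_K2 i j hij x).1 hx2
    have h5 := fa_nonneg i x
    nlinarith [sq_nonneg s]
  · obtain ⟨B, hB, hB'⟩ := balls1 i j hi hij 8
    refine ⟨B, hB, hd _ _ fun x hx hx2 => ?_⟩
    obtain ⟨s, h1, h2⟩ := hB' x hx
    obtain ⟨h3, h4⟩ := (mem_K3 i j x).1 hx2
    have h5 := fb_zero i j x h4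
    nlinarith [sq_nonneg s]
  · obtain ⟨B, hB, hB'⟩ := balls2 i j hi hij 3
    refine ⟨B, hB, hd _ _ fun x hx hx2 => ?_⟩
    obtain ⟨s, h1, h2⟩ := hB' x hx
    obtain ⟨h3, h4⟩ := (mem_K1 i j hij x).1 hx2
    have h5 := fc_zero j x h4
    nlinarith [sq_nonneg s]
  · exact (hab rfl).elim
  · obtain ⟨B, hB, hB'⟩ := balls2 i j hi hij 0
    refine ⟨B, hB, hd _ _ fun x hx hx2 => ?_⟩
    obtain ⟨s, h1, h2⟩ := hB' x hx
    obtain ⟨h3, h4⟩ := (mem_K3 i j x).1 hx2
    have h5 := fb_zero i j x h4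
    nlinarith [sq_nonneg s]
  · obtain ⟨B, hB, hB'⟩ := balls3 i j hi hij 0
    refine ⟨B, hB, hd _ _ fun x hx hx2 => ?_⟩
    obtain ⟨s, h1, h2⟩ := hB' x hx
    obtain ⟨h3, h4⟩ := (mem_K1 i j hij x).1 hx2
    have h5 := fc_zero j x h4
    nlinarith [sq_nonneg s]
  · obtain ⟨B, hB, hB'⟩ := balls3 i j hi hij 4
    refine ⟨B, hB, hd _ _ fun x hx hx2 => ?_⟩
    obtain ⟨s, h1, h2⟩ := hB' x hx
    obtain ⟨h3, h4⟩ := (mem_K2 i j hij x).1 hx2
    have h5 := fa_zero i x h4
    nlinarith [sq_nonneg s]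
  · exact (hab rfl).elim

theorem isLink (hi : 1 ≤ i) (hij : i + j + 2 ≤ n) : IsLink (L i j n) := by
  constructor
  · intro a
    fin_cases a
    · obtain ⟨B, hB, -⟩ := balls1 i j hi hij 0
      exact ballBoundedBy_isKnot hB
    · obtain ⟨B, hB, -⟩ := balls2 i j hi hij 0
      exact ballBoundedBy_isKnot hB
    · obtain ⟨B, hB, -⟩ := balls3 i j hi hij 0
      exact ballBoundedBy_isKnot hB
  · have h12 : ∀ x : E n, x ∈ K1 j n → x ∈ K2 i n → False := by
      intro x hx hy
      obtain ⟨h1, h2⟩ := (mem_K1 i j hij x).1 hx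
      obtain ⟨h3, h4⟩ := (mem_K2 i j hij x).1 hy
      have h5 := fc_zero j x h2
      have h6 := fa_zero i x h4
      linarith
    have h13 : ∀ x : E n, x ∈ K1 j n → x ∈ K3 i j n → False := by
      intro x hx hy
      obtain ⟨h1, h2⟩ := (mem_K1 i j hij x).1 hx
      obtain ⟨h3, h4⟩ := (mem_K3 i j x).1 hy
      have h5 := fc_zero j x h2
      have h6 := fb_zero i j x h4
      linarith
    have h23 : ∀ x : E n, x ∈ K2 i n → x ∈ K3 i j n → False := by
      intro x hx hy
      obtain ⟨h1, h2⟩ := (mem_K2 i j hij x).1 hx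
      obtain ⟨h3, h4⟩ := (mem_K3 i j x).1 hy
      have h5 := fa_zero i x h2
      have h6 := fb_zero i j x h4
      linarith
    intro a b hab
    rw [Set.disjoint_left]
    intro x hx hy
    fin_cases a <;> fin_cases b
    · exact hab rfl
    · exact h12 x hx hy
    · exact h13 x hx hy
    · exact h12 x hy hx
    · exact hab rfl
    · exact h23 x hx hy
    · exact h13 x hy hx
    · exact h23 x hy hx
    · exact hab rfl

/-- Coordinates of the first block. -/
abbrev XX (n i : ℕ) : Type := {m : Fin n // (m : ℕ) < i} → ℝ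

/-- Coordinates of the middle block. -/
abbrev YY (n i j : ℕ) : Type := {m : Fin n // i ≤ (m : ℕ) ∧ (m : ℕ) + j + 1 < n} → ℝ

/-- Inclusion of the coordinate subspace spanned by the first two blocks. -/
noncomputable def inc (p : XX n i × YY n i j) : E n := WithLp.toLp 2 (fun m =>
  if h : (m : ℕ) < i then p.1 ⟨m, h⟩
  else if h' : (m : ℕ) + j + 1 < n then p.2 ⟨m, not_lt.1 h, h'⟩ else 0)

theorem inc_continuous : Continuous (inc i j : XX n i × YY n i j → E n) := by
  refine (PiLp.continuous_toLp 2 _).comp (continuous_pi fun m => ?_)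
  by_cases h : (m : ℕ) < i
  · simp only [h, dite_true]
    fun_prop
  · by_cases h' : (m : ℕ) + j + 1 < n
    · simp only [h, h', dite_true, dite_false]
      fun_prop
    · simp only [h, h', dite_false]
      fun_prop

theorem inc_fst (p : XX n i × YY n i j) (m : Fin n) (h : (m : ℕ) < i) :
    inc i j p m = p.1 ⟨m, h⟩ := by
  simp [inc, h]

theorem inc_snd (p : XX n i × YY n i j) (m : Fin n) (h : i ≤ (m : ℕ))
    (h' : (m : ℕ) + j + 1 < n) : inc i j p m = p.2 ⟨m, h, h'⟩ := by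
  simp [inc, not_lt.2 h, h']

theorem inc_last (hij : i + j + 2 ≤ n) (p : XX n i × YY n i j) (m : Fin n)
    (h : n ≤ (m : ℕ) + j + 1) : inc i j p m = 0 := by
  have h1 : ¬ (m : ℕ) < i := by omega
  simp [inc, h1, not_lt.2 h]

theorem fa_continuous : Continuous (fa i : E n → ℝ) := by
  unfold fa
  fun_prop

theorem fb_continuous : Continuous (fb i j : E n → ℝ) := by
  unfold fb
  fun_prop

theorem fc_continuous : Continuous (fc j : E n → ℝ) := by
  unfold fc
  fun_prop

theorem not_unlink (hi : 1 ≤ i) (hij : i + j + 2 ≤ n) : ¬ IsUnlink (L i j n) := by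
  classical
  intro hL
  obtain ⟨B, ⟨k, h, hF⟩, hB⟩ := hL 0
  have hB2 : Disjoint B (K2 i n) := hB 1 (by decide)
  have hB3 : Disjoint B (K3 i j n) := hB 2 (by decide)
  have hK1B : K1 j n ⊆ B := by
    have hF' : {y : E n | ∃ x : closedBall (0 : E (k + 1)) 1, ‖(x : E (k + 1))‖ = 1 ∧
      (h x : E n) = y} = K1 j n := hF
    rw [← hF']
    rintro _ ⟨x, -, rfl⟩
    exact (h x).2
  have _ : Nonempty {m : Fin n // (m : ℕ) < i} := ⟨⟨⟨0, by omega⟩, by simp; omega⟩⟩
  have _ : Nonempty {m : Fin n // i ≤ (m : ℕ) ∧ (m : ℕ) + j + 1 < n} :=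
    ⟨⟨⟨i, by omega⟩, by simp; omega⟩⟩
  let r : XX n i × YY n i j → ℝ := fun p => fa i (inc i j p) + fb i j (inc i j p)
  have hr : Continuous r := ((fa_continuous i).comp (inc_continuous i j)).add
    ((fb_continuous i j).comp (inc_continuous i j))
  have hrK : ∀ p, r p = 4 → inc i j p ∈ K1 j n := fun p hp =>
    (mem_K1 i j hij _).2 ⟨hp, fun m hm => inc_last i j hij p m hm⟩
  have hfcinc : ∀ p, fc j (inc i j p) = 0 := fun p =>
    fc_zero j _ fun m hm => inc_last i j hij p m hm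
  have hnorm : ∀ p, r p ≤ 4 → ‖p‖ ≤ 2 := by
    intro p hp
    have habs : ∀ t : ℝ, t ^ 2 ≤ 4 → ‖t‖ ≤ 2 := by
      intro t ht
      rw [Real.norm_eq_abs]
      exact abs_le_of_sq_le_sq (by linarith) (by norm_num)
    rw [Prod.norm_def]
    apply max_le
    · rw [pi_norm_le_iff_of_nonneg (by norm_num)]
      rintro ⟨m, hm⟩
      apply habs
      have h1 : (inc i j p m) ^ 2 ≤ fa i (inc i j p) := by
        unfold fa
        exact Finset.single_le_sum (f := fun m => (inc i j p m) ^ 2)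
          (fun _ _ => sq_nonneg _) (by simpa using hm)
      rw [inc_fst i j p m hm] at h1
      have h2 := fb_nonneg i j (inc i j p)
      linarith
    · rw [pi_norm_le_iff_of_nonneg (by norm_num)]
      rintro ⟨m, hm, hm'⟩
      apply habs
      have h1 : (inc i j p m) ^ 2 ≤ fb i j (inc i j p) := by
        unfold fb
        exact Finset.single_le_sum (f := fun m => (inc i j p m) ^ 2)
          (fun _ _ => sq_nonneg _) (by simpa using ⟨hm, hm'⟩)
      rw [inc_snd i j p m hm hm'] at h1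
      have h2 := fa_nonneg i (inc i j p)
      linarith
  -- extension of the boundary parametrization
  let Sg : Set (XX n i × YY n i j) := {p | r p = 4}
  have hSg : IsClosed Sg := isClosed_eq hr continuous_const
  let f0 : C(Sg, closedBall (0 : E (k + 1)) 1) :=
    ⟨fun p => h.symm ⟨inc i j p, hK1B (hrK p p.2)⟩, h.symm.continuous.comp
      (((inc_continuous i j).comp continuous_subtype_val).subtype_mk _)⟩
  obtain ⟨g, hg⟩ := ContinuousMap.exists_restrict_eq hSg f0
  have hgS : ∀ p, r p = 4 → (h (g p) : E n) = inc i j p := by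
    intro p hp
    have h1 : g p = f0 ⟨p, hp⟩ := DFunLike.congr_fun hg ⟨p, hp⟩
    rw [h1]
    simp [f0]
  let F : XX n i × YY n i j → E n := fun p => if r p ≤ 4 then (h (g p) : E n) else inc i j p
  have hFc : Continuous F := by
    apply Continuous.if_le
    · exact continuous_subtype_val.comp (h.continuous.comp g.continuous)
    · exact inc_continuous i j
    · exact hr
    · exact continuous_const
    · intro p hp
      exact hgS p hp
  have hFin : ∀ p, r p ≤ 4 → F p ∈ B := by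
    intro p hp
    simp only [F, hp, if_true]
    exact (h (g p)).2
  have hFout : ∀ p, 4 ≤ r p → F p = inc i j p := by
    intro p hp
    rcases hp.eq_or_lt with h1 | h1
    · simp only [F, h1.symm.le, if_true]
      exact hgS p h1.symm
    · simp only [F, not_le.2 h1, if_false]
  let u : XX n i × YY n i j → XX n i := fun p m => F p m
  let v : XX n i × YY n i j → YY n i j := fun p m => F p m
  have hu : Continuous u := by
    refine continuous_pi fun m => ?_
    exact (EuclideanSpace.proj (𝕜 := ℝ) (m : Fin n)).continuous.comp hFc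
  have hv : Continuous v := by
    refine continuous_pi fun m => ?_
    exact (EuclideanSpace.proj (𝕜 := ℝ) (m : Fin n)).continuous.comp hFc
  have hu0 : ∀ p, u p = 0 → ∀ m : Fin n, (m : ℕ) < i → F p m = 0 := by
    intro p hp m hm
    exact congrFun hp ⟨m, hm⟩
  have hv0 : ∀ p, v p = 0 → ∀ m : Fin n, i ≤ (m : ℕ) → (m : ℕ) + j + 1 < n → F p m = 0 := by
    intro p hp m hm hm'
    exact congrFun hp ⟨m, hm, hm'⟩
  have hua : ∀ p, u p = 0 → fa i (F p) = 0 := fun p hp => fa_zero i _ (hu0 p hp)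
  have hvb : ∀ p, v p = 0 → fb i j (F p) = 0 := fun p hp => fb_zero i j _ (hv0 p hp)
  have hFa : Continuous fun p => fa i (F p) := (fa_continuous i).comp hFc
  have hFb : Continuous fun p => fb i j (F p) := (fb_continuous i j).comp hFc
  have hFcc : Continuous fun p => fc j (F p) := (fc_continuous j).comp hFc
  have hgt : ∀ p : XX n i × YY n i j, 2 < ‖p‖ → 4 ≤ r p := by
    intro p hp
    by_contra hcon
    exact absurd (hnorm p (not_le.1 hcon).le) (not_le.2 hp)
  refine core u v hu hv 2 (by norm_num) ?_ ?_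
    {p | u p = 0 ∧ (fb i j (F p) + fc j (F p) ≤ 9 ∨ 4 ≤ r p)}
    {p | r p ≤ 4 ∧ u p = 0 ∧ 9 ≤ fb i j (F p) + fc j (F p)}
    {p | r p ≤ 4 ∧ v p = 0 ∧ fa i (F p) + (1 / 16) * fc j (F p) ≤ 1}
    {p | v p = 0 ∧ (1 ≤ fa i (F p) + (1 / 16) * fc j (F p) ∨ 4 ≤ r p)}
    ?_ ?_ ?_ ?_ ?_ ?_ ?_ ?_ ?_ ?_ ?_
  · intro p hp
    funext ⟨m, hm⟩
    change F p m = _
    rw [hFout p (hgt p hp), inc_fst i j p m hm]
  · intro p hp
    funext ⟨m, hm, hm'⟩
    change F p m = _
    rw [hFout p (hgt p hp), inc_snd i j p m hm hm']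
  · refine (isClosed_eq hu continuous_const).inter ?_
    exact (isClosed_le (hFb.add hFcc) continuous_const).union
      (isClosed_le continuous_const hr)
  · refine (isClosed_le hr continuous_const).inter ((isClosed_eq hu continuous_const).inter ?_)
    exact isClosed_le continuous_const (hFb.add hFcc)
  · refine (isClosed_le hr continuous_const).inter ((isClosed_eq hv continuous_const).inter ?_)
    exact isClosed_le (hFa.add (continuous_const.mul hFcc)) continuous_const
  · refine (isClosed_eq hv continuous_const).inter ?_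
    exact (isClosed_le continuous_const (hFa.add (continuous_const.mul hFcc))).union
      (isClosed_le continuous_const hr)
  · intro p hp
    rcases le_total (r p) 4 with h1 | h1
    · rcases le_total (fb i j (F p) + fc j (F p)) 9 with h2 | h2
      · exact Or.inl ⟨hp, Or.inl h2⟩
      · exact Or.inr ⟨h1, hp, h2⟩
    · exact Or.inl ⟨hp, Or.inr h1⟩
  · intro p hp
    rcases le_total (r p) 4 with h1 | h1
    · rcases le_total 1 (fa i (F p) + (1 / 16) * fc j (F p)) with h2 | h2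
      · exact Or.inr ⟨hp, Or.inl h2⟩
      · exact Or.inl ⟨h1, hp, h2⟩
    · exact Or.inr ⟨hp, Or.inr h1⟩
  · rw [Set.disjoint_left]
    rintro p ⟨h1, h2⟩ ⟨h3, -, h5⟩
    rcases h2 with h2 | h2
    · apply Set.disjoint_left.1 hB2 (hFin p h3)
      exact (mem_K2 i j hij _).2 ⟨le_antisymm h2 h5, hu0 p h1⟩
    · have h6 := hFout p h2
      have h7 := hua p h1
      rw [h6] at h5 h7
      have h8 := hfcinc p
      have h9 : fa i (inc i j p) + fb i j (inc i j p) ≤ 4 := h3
      linarith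
  · rw [Set.disjoint_left]
    rintro p ⟨h3, h1, h5⟩ ⟨-, h2⟩
    rcases h2 with h2 | h2
    · apply Set.disjoint_left.1 hB3 (hFin p h3)
      exact (mem_K3 i j _).2 ⟨le_antisymm h5 h2, hv0 p h1⟩
    · have h6 := hFout p h2
      have h7 := hvb p h1
      rw [h6] at h5 h7
      have h8 := hfcinc p
      have h9 : 4 ≤ fa i (inc i j p) + fb i j (inc i j p) := h2
      linarith
  · rintro p ⟨h1, -, -⟩
    exact hnorm p h1
  · rintro p ⟨h1, -, -⟩
    exact hnorm p h1
  · rintro p ⟨h1, h2⟩ ⟨h3, h4⟩ - -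
    have h5 := hua p h1
    have h6 := hvb p h3
    by_cases h7 : 4 ≤ r p
    · rw [hFout p h7] at h5 h6
      have h9 : 4 ≤ fa i (inc i j p) + fb i j (inc i j p) := h7
      linarith
    · have h8 : fb i j (F p) + fc j (F p) ≤ 9 := h2.resolve_right h7
      have h9 : 1 ≤ fa i (F p) + (1 / 16) * fc j (F p) := h4.resolve_right h7
      linarith

end Blocks

end Pool.Agent.Lib.MP_91a61a_gt
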